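import Pool.Agent.N205.WT.Stm

/-!
# Project WT, part 3 (helper738)
-/

set_option autoImplicit false

namespace Pool.Agent.N738.WT

open Polynomial IntermediateField Pool.Agent.N205.WT

theorem arith (n : ℤ) (q : ℕ) (hq : q.Prime) (h3 : q % 4 = 3) (h1 : (q : ℤ) ∣ n)
    (h2 : ¬ (q : ℤ) ^ 2 ∣ n) (a b : ℚ) (h : (n : ℚ) = a ^ 2 + b ^ 2) : False := by
  have hn0 : n ≠ 0 := by rintro rfl; exact h2 (dvd_zero _)
  have hn : 0 ≤ n := by
    have : (0 : ℚ) ≤ n := by rw [h]; positivity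
    exact_mod_cast this
  obtain ⟨N, rfl⟩ := Int.eq_ofNat_of_zero_le hn
  have hN0 : N ≠ 0 := by rintro rfl; exact hn0 rfl
  have hN1 : q ∣ N := by exact_mod_cast h1
  have hN2 : ¬ q ^ 2 ∣ N := by
    intro hh; exact h2 (by exact_mod_cast hh)
  set d := a.den * b.den with hd
  have hd0 : d ≠ 0 := mul_ne_zero a.den_nz b.den_nz
  set A := a.num * b.den with hA
  set B := b.num * a.den with hB
  have h4 : ((N : ℚ)) * (d : ℚ) ^ 2 = (A : ℚ) ^ 2 + (B : ℚ) ^ 2 := by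
    have h' : (N : ℚ) = a ^ 2 + b ^ 2 := by exact_mod_cast h
    rw [h', hA, hB, hd]
    push_cast
    have f1 : a * a.den = a.num := Rat.mul_den_eq_num a
    have f2 : b * b.den = b.num := Rat.mul_den_eq_num b
    calc (a ^ 2 + b ^ 2) * ((a.den : ℚ) * b.den) ^ 2
        = (a * a.den) ^ 2 * (b.den : ℚ) ^ 2 + (b * b.den) ^ 2 * (a.den : ℚ) ^ 2 := by ring
      _ = _ := by rw [f1, f2]; ring
  have h5 : (N : ℤ) * (d : ℤ) ^ 2 = A ^ 2 + B ^ 2 := by exact_mod_cast h4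
  have h6 : N * d ^ 2 = A.natAbs ^ 2 + B.natAbs ^ 2 := by
    have : ((N * d ^ 2 : ℕ) : ℤ) = ((A.natAbs ^ 2 + B.natAbs ^ 2 : ℕ) : ℤ) := by
      push_cast
      rw [sq_abs, sq_abs]
      exact h5
    exact_mod_cast this
  have hne : N * d ^ 2 ≠ 0 := mul_ne_zero hN0 (pow_ne_zero _ hd0)
  have h7 := Nat.eq_sq_add_sq_iff.mp ⟨_, _, h6⟩ q
    (Nat.mem_primeFactors.mpr ⟨hq, hN1.mul_right _, hne⟩) h3
  have : Fact q.Prime := ⟨hq⟩
  rw [padicValNat.mul hN0 (pow_ne_zero _ hd0), padicValNat.pow] at h7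
  have h8 : padicValNat q N = 1 := by
    have h9 : 1 ≤ padicValNat q N := one_le_padicValNat_of_dvd hN0 hN1
    have h10 : padicValNat q N < 2 := by
      by_contra hcon
      exact hN2 ((padicValNat_dvd_iff_le hN0).mpr (not_lt.mp hcon))
    omega
  rw [h8] at h7
  rcases h7 with ⟨c, hc⟩
  omega

theorem normval {K : Type} [Field K] [Algebra ℚ K] (pb : PowerBasis ℚ K) (t : ℚ) :
    Algebra.norm ℚ (algebraMap ℚ K t - pb.gen) = (minpoly ℚ pb.gen).eval t := by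
  rw [Algebra.norm_eq_matrix_det pb.basis, map_sub, ← charpoly_leftMulMatrix, Matrix.eval_charpoly,
    AlgHom.commutes]
  rfl

instance factE : Fact (∀ r : ℚ, r ^ 2 ≠ (-1) + 0 * r) := ⟨fun r h => by nlinarith [sq_nonneg r]⟩

theorem norm_E (β : QuadraticAlgebra ℚ (-1) 0) : Algebra.norm ℚ β = β.re ^ 2 + β.im ^ 2 := by
  have h1 := QuadraticAlgebra.det_toLinearMap_eq_norm β
  rw [QuadraticAlgebra.norm_def] at h1
  rw [Algebra.norm_apply]
  have h2 : (Algebra.lmul ℚ (QuadraticAlgebra ℚ (-1) 0)) β =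
      DistribSMul.toLinearMap ℚ (QuadraticAlgebra ℚ (-1) 0) β := by
    ext z <;> rfl
  rw [h2, h1]; ring

theorem key {K : Type} [Field K] [Algebra ℚ K] (pb : PowerBasis ℚ K) (s : K) (hs : s * s = -1)
    (t : ℚ) : ∃ a b : ℚ, (minpoly ℚ pb.gen).eval t = a ^ 2 + b ^ 2 := by
  have hs' : s * s = (-1 : ℚ) • (1 : K) + (0 : ℚ) • s := by
    rw [hs]; simp
  let f : QuadraticAlgebra ℚ (-1) 0 →ₐ[ℚ] K := QuadraticAlgebra.lift ⟨s, hs'⟩
  let : Algebra (QuadraticAlgebra ℚ (-1) 0) K := f.toRingHom.toAlgebra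
  have : IsScalarTower ℚ (QuadraticAlgebra ℚ (-1) 0) K :=
    IsScalarTower.of_algebraMap_eq fun r => (f.commutes r).symm
  have hnn := Algebra.norm_norm (R := ℚ) (S := QuadraticAlgebra ℚ (-1) 0) (A := K)
    (a := algebraMap ℚ K t - pb.gen)
  rw [norm_E, normval pb] at hnn
  exact ⟨_, _, hnn.symm⟩

theorem noi : S_NOI := by
  intro P N hN hm hdeg hirr t q hq h3 h1 h2 x hx s hs hs2
  have hPx : aeval x (P.map (Int.castRingHom ℚ)) = 0 := by
    rw [← hx]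
    exact aeval_map_algebraMap ℚ x P
  have hmin : P.map (Int.castRingHom ℚ) = minpoly ℚ x :=
    minpoly.eq_of_irreducible_of_monic hirr hPx (hm.map _)
  have hint : IsIntegral ℚ x := ⟨_, hm.map _, hPx⟩
  have hgen : (adjoin.powerBasis hint).gen = AdjoinSimple.gen ℚ x := adjoin.powerBasis_gen hint
  obtain ⟨a, b, hab⟩ := @key ℚ⟮x⟯ _ (IntermediateField.algebra' _) (adjoin.powerBasis hint) ⟨s, hs⟩
    (Subtype.ext (by
      change s * s = -1
      rw [← sq]; exact hs2)) (t : ℚ)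
  rw [hgen, IntermediateField.minpoly_gen, ← hmin] at hab
  have hev : (P.map (Int.castRingHom ℚ)).eval (t : ℚ) = ((P.eval t : ℤ) : ℚ) := by
    rw [eval_map, ← eq_intCast (Int.castRingHom ℚ) t, eval₂_at_apply]; rfl
  rw [hev] at hab
  exact arith (P.eval t) q hq h3 h1 h2 _ _ hab

end Pool.Agent.N738.WT
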